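import Mathlib
set_option autoImplicit false

/-! Rotations of the plane. -/

namespace Pool.Agent.H147R3.BV

open MeasureTheory Set
open scoped ENNReal

/-- the rotation with second basis vector going to `(u, v)` -/
def rot (u v : ℝ) (x : ℝ × ℝ) : ℝ × ℝ := (v * x.1 + u * x.2, -u * x.1 + v * x.2)

lemma rot_cont (u v : ℝ) : Continuous (rot u v) := by
  unfold rot
  fun_prop

/-- shears preserve the area -/
lemma shear1 (c : ℝ) : MeasurePreserving (fun x : ℝ × ℝ => (x.1, x.2 + c * x.1))
    (volume : Measure (ℝ × ℝ)) volume := by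
  have h := MeasurePreserving.skew_product (μa := (volume : Measure ℝ)) (μb := (volume : Measure ℝ))
    (μc := (volume : Measure ℝ)) (μd := (volume : Measure ℝ)) (f := fun a : ℝ => a)
    (g := fun a b : ℝ => b + c * a) (MeasurePreserving.id _) (by fun_prop)
    (ae_of_all _ fun a => (measurePreserving_add_right volume (c * a)).map_eq)
  exact h

lemma swap_mp : MeasurePreserving (Prod.swap : ℝ × ℝ → ℝ × ℝ) (volume : Measure (ℝ × ℝ)) volume :=
  Measure.measurePreserving_swap

lemma shear2 (c : ℝ) : MeasurePreserving (fun x : ℝ × ℝ => (x.1 + c * x.2, x.2))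
    (volume : Measure (ℝ × ℝ)) volume :=
  swap_mp.comp ((shear1 c).comp swap_mp)

lemma neg_mp : MeasurePreserving (fun x : ℝ × ℝ => (-x.1, -x.2))
    (volume : Measure (ℝ × ℝ)) volume :=
  (Measure.measurePreserving_neg (volume : Measure ℝ)).prod
    (Measure.measurePreserving_neg (volume : Measure ℝ))

lemma rot_mp (u v : ℝ) (h : u ^ 2 + v ^ 2 = 1) :
    MeasurePreserving (rot u v) (volume : Measure (ℝ × ℝ)) volume := by
  rcases eq_or_ne u 0 with hu | hu
  · subst hu
    have hv : v = 1 ∨ v = -1 := by
      have : (v - 1) * (v + 1) = 0 := by nlinarith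
      rcases mul_eq_zero.1 this with h1 | h1
      · left; linarith
      · right; linarith
    rcases hv with hv | hv
    · subst hv
      have e : rot 0 1 = id := by
        ext x <;> simp [rot]
      rw [e]
      exact MeasurePreserving.id _
    · subst hv
      have e : rot 0 (-1) = fun x : ℝ × ℝ => (-x.1, -x.2) := by
        ext x <;> simp [rot]
      rw [e]
      exact neg_mp
  · -- a rotation is a product of three shears
    have e : rot u v = (fun x : ℝ × ℝ => (x.1 + ((1 - v) / u) * x.2, x.2)) ∘
        ((fun x : ℝ × ℝ => (x.1, x.2 + (-u) * x.1)) ∘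
          (fun x : ℝ × ℝ => (x.1 + ((1 - v) / u) * x.2, x.2))) := by
      ext x
      · simp only [rot, Function.comp]
        field_simp
        linear_combination (x.2) * h
      · simp only [rot, Function.comp]
        field_simp
        ring
    rw [e]
    exact (shear2 _).comp ((shear1 _).comp (shear2 _))

lemma rot_norm (u v : ℝ) (h : u ^ 2 + v ^ 2 = 1) (x : ℝ × ℝ) :
    (rot u v x).1 ^ 2 + (rot u v x).2 ^ 2 = x.1 ^ 2 + x.2 ^ 2 := by
  simp only [rot]
  linear_combination (x.1 ^ 2 + x.2 ^ 2) * h

end Pool.Agent.H147R3.BV
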