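import Mathlib
import Pool.Agent.H728R3.SR.L
set_option autoImplicit false

/-! Gaussian averages of unimodular quadratic phases. -/

namespace Pool.Agent.H147R3.BV

open MeasureTheory Set Complex Filter Topology
open Pool.Agent.H147R3.PE
open scoped ENNReal

/-- the Gaussian weight of width `|s|^(-1/2)` -/
noncomputable def gs (s y : ℝ) : ℝ := Real.sqrt (|s| / Real.pi) * Real.exp (-|s| * y ^ 2)

lemma gs_nn (s y : ℝ) : 0 ≤ gs s y := by unfold gs; positivity

lemma gs_cont (s : ℝ) : Continuous (gs s) := by unfold gs; fun_prop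

lemma gs_int (s : ℝ) (hs : s ≠ 0) : Integrable (gs s) := by
  unfold gs
  exact (integrable_exp_neg_mul_sq (abs_pos.2 hs)).const_mul _

lemma gs_one (s : ℝ) (hs : s ≠ 0) : ∫ y, gs s y = 1 := by
  unfold gs
  have h0 : 0 < |s| := abs_pos.2 hs
  rw [integral_const_mul, integral_gaussian, ← Real.sqrt_mul (by positivity)]
  have : |s| / Real.pi * (Real.pi / |s|) = 1 := by
    have := Real.pi_pos
    field_simp
  rw [this, Real.sqrt_one]

lemma gs_lone (s : ℝ) (hs : s ≠ 0) : ∫⁻ y, ENNReal.ofReal (gs s y) = 1 := by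
  rw [← ofReal_integral_eq_lintegral_ofReal (gs_int s hs) (ae_of_all _ (gs_nn s)), gs_one s hs,
    ENNReal.ofReal_one]

/-- constant of the moments -/
noncomputable def ck (k : ℝ) : ℝ := 1 + 2 ^ ⌈k⌉₊ * (⌈k⌉₊.factorial : ℝ)

lemma pow_le (k z : ℝ) (hk : 0 ≤ k) : |z| ^ k ≤ ck k * Real.exp (z ^ 2 / 2) := by
  set n := ⌈k⌉₊ with hn
  have h1 : (z ^ 2 / 2) ^ n / (n.factorial : ℝ) ≤ Real.exp (z ^ 2 / 2) :=
    Real.pow_div_factorial_le_exp _ (by positivity) n
  have hf : (0 : ℝ) < (n.factorial : ℝ) := by exact_mod_cast n.factorial_pos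
  have h2 : |z| ^ (2 * n) ≤ 2 ^ n * (n.factorial : ℝ) * Real.exp (z ^ 2 / 2) := by
    rw [div_le_iff₀ hf, div_pow, div_le_iff₀ (by positivity)] at h1
    rw [pow_mul, sq_abs]
    linarith
  have h3 : |z| ^ k ≤ 1 + |z| ^ (2 * n) := by
    rcases le_or_gt |z| 1 with h | h
    · have : |z| ^ k ≤ 1 := Real.rpow_le_one (abs_nonneg _) h hk
      have : 0 ≤ |z| ^ (2 * n) := by positivity
      linarith
    · have h4 : |z| ^ k ≤ |z| ^ ((2 * n : ℕ) : ℝ) := by
        apply Real.rpow_le_rpow_of_exponent_le h.le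
        push_cast
        have := Nat.le_ceil k
        have h0 : (0 : ℝ) ≤ n := Nat.cast_nonneg _
        rw [← hn] at this
        linarith
      rw [Real.rpow_natCast] at h4
      linarith
  have h5 : (1 : ℝ) ≤ Real.exp (z ^ 2 / 2) := Real.one_le_exp (by positivity)
  unfold ck
  rw [add_mul, one_mul]
  linarith

lemma moment (s k : ℝ) (hs : s ≠ 0) (hk : 0 ≤ k) :
    ∫⁻ y, ENNReal.ofReal (gs s y) * ENNReal.ofReal (|y| ^ k) ≤
      ENNReal.ofReal (2 * ck k * |s| ^ (-(k / 2))) := by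
  have h0 : 0 < |s| := abs_pos.2 hs
  have hck : 0 ≤ ck k := by unfold ck; positivity
  have hpt : ∀ y, gs s y * |y| ^ k ≤ (ck k * |s| ^ (-(k / 2)) * Real.sqrt (|s| / Real.pi)) *
      Real.exp (-(|s| / 2) * y ^ 2) := by
    intro y
    have h1 := pow_le k (Real.sqrt |s| * y) hk
    rw [abs_mul, abs_of_nonneg (Real.sqrt_nonneg _), mul_pow, Real.sq_sqrt h0.le,
      Real.mul_rpow (Real.sqrt_nonneg _) (abs_nonneg _)] at h1
    have h2 : Real.sqrt |s| ^ k = |s| ^ (k / 2) := by
      rw [Real.sqrt_eq_rpow, ← Real.rpow_mul h0.le]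
      congr 1
      ring
    rw [h2] at h1
    have h3 : |y| ^ k ≤ |s| ^ (-(k / 2)) * (ck k * Real.exp (|s| * y ^ 2 / 2)) := by
      have h4 : |s| ^ (-(k / 2)) * (|s| ^ (k / 2) * |y| ^ k) = |y| ^ k := by
        rw [← mul_assoc, ← Real.rpow_add h0, neg_add_cancel, Real.rpow_zero, one_mul]
      rw [← h4]
      exact mul_le_mul_of_nonneg_left h1 (by positivity)
    have h5 : Real.exp (-|s| * y ^ 2) * Real.exp (|s| * y ^ 2 / 2) =
        Real.exp (-(|s| / 2) * y ^ 2) := by
      rw [← Real.exp_add]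
      congr 1
      ring
    calc gs s y * |y| ^ k ≤ gs s y * (|s| ^ (-(k / 2)) * (ck k * Real.exp (|s| * y ^ 2 / 2))) :=
          mul_le_mul_of_nonneg_left h3 (gs_nn s y)
      _ = (ck k * |s| ^ (-(k / 2)) * Real.sqrt (|s| / Real.pi)) *
          (Real.exp (-|s| * y ^ 2) * Real.exp (|s| * y ^ 2 / 2)) := by
          unfold gs
          ring
      _ = _ := by rw [h5]
  calc ∫⁻ y, ENNReal.ofReal (gs s y) * ENNReal.ofReal (|y| ^ k)
      ≤ ∫⁻ y, ENNReal.ofReal ((ck k * |s| ^ (-(k / 2)) * Real.sqrt (|s| / Real.pi)) *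
        Real.exp (-(|s| / 2) * y ^ 2)) := by
        apply lintegral_mono
        intro y
        simp only
        rw [← ENNReal.ofReal_mul (gs_nn s y)]
        exact ENNReal.ofReal_le_ofReal (hpt y)
    _ = ENNReal.ofReal (∫ y, (ck k * |s| ^ (-(k / 2)) * Real.sqrt (|s| / Real.pi)) *
        Real.exp (-(|s| / 2) * y ^ 2)) := by
        rw [ofReal_integral_eq_lintegral_ofReal]
        · exact (integrable_exp_neg_mul_sq (by positivity)).const_mul _
        · exact ae_of_all _ fun y => by positivity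
    _ ≤ _ := by
        apply ENNReal.ofReal_le_ofReal
        rw [integral_const_mul, integral_gaussian]
        have e1 : Real.sqrt (|s| / Real.pi) * Real.sqrt (Real.pi / (|s| / 2)) = Real.sqrt 2 := by
          rw [← Real.sqrt_mul (by positivity)]
          congr 1
          have := Real.pi_pos
          field_simp
        calc _ = ck k * |s| ^ (-(k / 2)) *
              (Real.sqrt (|s| / Real.pi) * Real.sqrt (Real.pi / (|s| / 2))) := by ring
          _ = ck k * |s| ^ (-(k / 2)) * Real.sqrt 2 := by rw [e1]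
          _ ≤ ck k * |s| ^ (-(k / 2)) * 2 := by
              apply mul_le_mul_of_nonneg_left _ (by positivity)
              rw [Real.sqrt_le_left (by norm_num)]
              norm_num
          _ = _ := by ring

/-- the averaged phase -/
noncomputable def KK (s u : ℝ) : ℂ :=
  ∫ y : ℝ, (gs s y : ℂ) * cexp (-I * (y * u + y ^ 2 * s))

lemma KK_le (s u : ℝ) (hs : s ≠ 0) : ‖KK s u‖ ≤ Real.exp (-(u ^ 2 / (8 * |s|))) := by
  have h0 : 0 < |s| := abs_pos.2 hs
  set b : ℂ := ((|s| : ℝ) : ℂ) + (s : ℂ) * I with hb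
  have hre : b.re = |s| := by simp [hb]
  have him : b.im = s := by simp [hb]
  have hbr : 0 < b.re := by rw [hre]; exact h0
  have h1 := fourierIntegral_gaussian hbr (-(u : ℂ))
  have e1 : KK s u = (Real.sqrt (|s| / Real.pi) : ℂ) *
      ∫ x : ℝ, cexp (I * (-(u : ℂ)) * x) * cexp (-b * x ^ 2) := by
    unfold KK
    rw [← integral_const_mul]
    apply integral_congr_ae
    refine ae_of_all _ fun x => ?_
    simp only
    unfold gs
    push_cast
    rw [mul_assoc, ← Complex.exp_add, ← Complex.exp_add]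
    congr 2
    rw [hb]
    ring
  rw [e1, h1, norm_mul, norm_mul, Complex.norm_real, Real.norm_of_nonneg (Real.sqrt_nonneg _)]
  have hbn : |s| ≤ ‖b‖ := by
    rw [← hre]
    exact (le_abs_self _).trans (Complex.abs_re_le_norm b)
  have e2 : ‖((Real.pi : ℂ) / b) ^ (1 / 2 : ℂ)‖ ≤ Real.sqrt (Real.pi / |s|) := by
    have h2 : (1 / 2 : ℂ) = ((1 / 2 : ℝ) : ℂ) := by push_cast; rfl
    rw [h2, Complex.norm_cpow_real, Real.sqrt_eq_rpow, norm_div, Complex.norm_real,
      Real.norm_of_nonneg Real.pi_pos.le]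
    apply Real.rpow_le_rpow (by positivity) _ (by norm_num)
    exact div_le_div_of_nonneg_left Real.pi_pos.le h0 hbn
  have e3 : ‖cexp (-(-(u : ℂ)) ^ 2 / (4 * b))‖ = Real.exp (-(u ^ 2 / (8 * |s|))) := by
    rw [Complex.norm_exp]
    congr 1
    have h3 : (-(-(u : ℂ)) ^ 2 / (4 * b)) = ((-(u ^ 2 / 4) : ℝ) : ℂ) * b⁻¹ := by
      push_cast
      have hb0 : b ≠ 0 := by
        intro h
        rw [h] at hbr
        simp at hbr
      field_simp
    rw [h3, Complex.re_ofReal_mul, Complex.inv_re, Complex.normSq_apply, hre, him]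
    have h4 : |s| * |s| + s * s = 2 * (|s| * |s|) := by
      have := abs_mul_abs_self s
      linarith
    rw [h4]
    field_simp
    ring
  rw [e3]
  calc Real.sqrt (|s| / Real.pi) * (‖((Real.pi : ℂ) / b) ^ (1 / 2 : ℂ)‖ *
        Real.exp (-(u ^ 2 / (8 * |s|))))
      ≤ Real.sqrt (|s| / Real.pi) * (Real.sqrt (Real.pi / |s|) *
        Real.exp (-(u ^ 2 / (8 * |s|)))) := by gcongr
    _ = (Real.sqrt (|s| / Real.pi) * Real.sqrt (Real.pi / |s|)) *
        Real.exp (-(u ^ 2 / (8 * |s|))) := by ring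
    _ = _ := by
        rw [← Real.sqrt_mul (by positivity)]
        have : |s| / Real.pi * (Real.pi / |s|) = 1 := by
          have := Real.pi_pos
          field_simp
        rw [this, Real.sqrt_one, one_mul]

/-- the majorant of the kernel -/
noncomputable def kk' (s η z : ℝ) : ℝ≥0∞ := ENNReal.ofReal (Real.exp (-((η + 2 * z * s) ^ 2 / (8 * |s|))))

lemma kk'_meas (s : ℝ) : Measurable fun p : ℝ × ℝ => kk' s p.1 p.2 := by
  unfold kk'
  fun_prop

lemma kk'_z (s η : ℝ) (hs : s ≠ 0) :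
    ∫⁻ z, kk' s η z = ENNReal.ofReal (Real.sqrt (2 * Real.pi / |s|)) := by
  have h0 : 0 < |s| := abs_pos.2 hs
  unfold kk'
  have h1 : ∀ z : ℝ, Real.exp (-((η + 2 * z * s) ^ 2 / (8 * |s|))) =
      (fun x : ℝ => Real.exp (-(|s| / 2) * x ^ 2)) (z + η / (2 * s)) := by
    intro z
    simp only
    congr 1
    have h2 : η + 2 * z * s = 2 * s * (z + η / (2 * s)) := by
      field_simp
      ring
    rw [h2, mul_pow, mul_pow, ← sq_abs s]
    field_simp
    ring
  simp only [h1]
  rw [lintegral_add_right_eq_self (fun x : ℝ => ENNReal.ofReal (Real.exp (-(|s| / 2) * x ^ 2))),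
    ← ofReal_integral_eq_lintegral_ofReal (integrable_exp_neg_mul_sq (by positivity))
      (ae_of_all _ fun x => by positivity), integral_gaussian]
  congr 2
  field_simp

lemma kk'_η (s z : ℝ) (hs : s ≠ 0) :
    ∫⁻ η, kk' s η z = ENNReal.ofReal (Real.sqrt (8 * Real.pi * |s|)) := by
  have h0 : 0 < |s| := abs_pos.2 hs
  unfold kk'
  have h1 : ∀ η : ℝ, Real.exp (-((η + 2 * z * s) ^ 2 / (8 * |s|))) =
      (fun x : ℝ => Real.exp (-(1 / (8 * |s|)) * x ^ 2)) (η + 2 * z * s) := by
    intro η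
    simp only
    congr 1
    ring
  simp only [h1]
  rw [lintegral_add_right_eq_self (fun x : ℝ => ENNReal.ofReal (Real.exp (-(1 / (8 * |s|)) * x ^ 2))),
    ← ofReal_integral_eq_lintegral_ofReal (integrable_exp_neg_mul_sq (by positivity))
      (ae_of_all _ fun x => by positivity), integral_gaussian]
  congr 2
  field_simp

end Pool.Agent.H147R3.BV
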