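import Mathlib
import Pool.Agent.H147R3.BV.One
set_option autoImplicit false

/-! Splitting of the one-dimensional extension operator by a Gaussian average of translations. -/

namespace Pool.Agent.H147R3.BV

open MeasureTheory Set Complex Filter Topology
open Pool.Agent.H147R3.PE
open scoped ENNReal

/-- Jensen -/
lemma jens {α : Type*} [MeasurableSpace α] (μ : Measure α) (q : ℝ) (hq : 1 < q)
    (w F : α → ℝ≥0∞) (hw : Measurable w) (hF : Measurable F) :
    (∫⁻ x, w x * F x ∂μ) ^ q ≤ (∫⁻ x, w x ∂μ) ^ (q - 1) * ∫⁻ x, w x * F x ^ q ∂μ := by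
  have hq0 : 0 < q := by linarith
  set p : ℝ := q / (q - 1) with hp
  have hq1 : 0 < q - 1 := by linarith
  have hconj : q.HolderConjugate p := by
    rw [Real.holderConjugate_iff]
    refine ⟨hq, ?_⟩
    rw [hp]
    field_simp
    ring
  have h := ENNReal.lintegral_mul_le_Lp_mul_Lq μ hconj
    (f := fun x => w x ^ (1 / q) * F x) (g := fun x => w x ^ (1 / p))
    (((hw.pow_const _).mul hF).aemeasurable) ((hw.pow_const _).aemeasurable)
  have hp0 : 0 < p := by positivity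
  have e1 : ∀ x, ((fun x => w x ^ (1 / q) * F x) * fun x => w x ^ (1 / p)) x = w x * F x := by
    intro x
    simp only [Pi.mul_apply]
    have h1 : w x ^ (1 / q) * F x * w x ^ (1 / p) = (w x ^ (1 / q) * w x ^ (1 / p)) * F x := by ring
    rw [h1, ← ENNReal.rpow_add_of_nonneg _ _ (by positivity) (by positivity)]
    have h2 : 1 / q + 1 / p = 1 := by
      rw [hp]
      field_simp
      ring
    rw [h2, ENNReal.rpow_one]
  have e2 : ∀ x, (w x ^ (1 / q) * F x) ^ q = w x * F x ^ q := by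
    intro x
    rw [ENNReal.mul_rpow_of_nonneg _ _ hq0.le, ← ENNReal.rpow_mul, one_div_mul_cancel hq0.ne',
      ENNReal.rpow_one]
  have e3 : ∀ x, (w x ^ (1 / p)) ^ p = w x := by
    intro x
    rw [← ENNReal.rpow_mul, one_div_mul_cancel hp0.ne', ENNReal.rpow_one]
  simp only [e1, e2, e3] at h
  calc (∫⁻ x, w x * F x ∂μ) ^ q
      ≤ ((∫⁻ x, w x * F x ^ q ∂μ) ^ (1 / q) * (∫⁻ x, w x ∂μ) ^ (1 / p)) ^ q := by gcongr
    _ = _ := by
        rw [ENNReal.mul_rpow_of_nonneg _ _ hq0.le, ← ENNReal.rpow_mul, ← ENNReal.rpow_mul,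
          one_div_mul_cancel hq0.ne', ENNReal.rpow_one, mul_comm]
        congr 2
        rw [hp]
        field_simp

/-- translation -/
def tr (y : ℝ) (w : ℝ → ℂ) : ℝ → ℂ := fun z => w (z - y)

lemma phase2 (t η y z : ℝ) : cexp (((-((z + y) * η) : ℝ) : ℂ) * I) *
    cexp (((-(t * (z + y) ^ 2) : ℝ) : ℂ) * I) =
    (cexp (((-(z * η) : ℝ) : ℂ) * I) * cexp (((-(t * z ^ 2) : ℝ) : ℂ) * I)) *
      cexp (-I * (y * ((η + 2 * z * t : ℝ) : ℂ) + y ^ 2 * t)) := by
  rw [← Complex.exp_add, ← Complex.exp_add, ← Complex.exp_add]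
  congr 1
  push_cast
  ring

lemma FT_tr (t η y : ℝ) (w : ℝ → ℂ) :
    FT (ch t (tr y w)) η = ∫ z : ℝ, (cexp (((-(z * η) : ℝ) : ℂ) * I) *
      cexp (((-(t * z ^ 2) : ℝ) : ℂ) * I)) *
      cexp (-I * (y * ((η + 2 * z * t : ℝ) : ℂ) + y ^ 2 * t)) * w z := by
  unfold FT ch tr
  rw [← integral_add_right_eq_self _ y]
  apply integral_congr_ae
  refine ae_of_all _ fun z => ?_
  simp only
  rw [← phase2, add_sub_cancel_right, mul_assoc]

lemma ph_norm (t η z : ℝ) : ‖cexp (((-(z * η) : ℝ) : ℂ) * I) *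
      cexp (((-(t * z ^ 2) : ℝ) : ℂ) * I)‖ = 1 := by
  rw [norm_mul, Complex.norm_exp_ofReal_mul_I, Complex.norm_exp_ofReal_mul_I, one_mul]

lemma ph_norm2 (u y t : ℝ) : ‖cexp (-I * (y * u + y ^ 2 * t))‖ = 1 := by
  have : -I * (y * u + y ^ 2 * t) = ((-(y * u + y ^ 2 * t) : ℝ) : ℂ) * I := by
    push_cast
    ring
  rw [this, Complex.norm_exp_ofReal_mul_I]

/-- the splitting -/
theorem split {M : ℝ} {w : ℝ → ℂ} (hw : BS M w) (t η : ℝ) (ht : t ≠ 0) :
    ‖FT (ch t w) η‖ₑ ≤ (∫⁻ z, kk' t η z * ‖w z‖ₑ) +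
      ∫⁻ y, ENNReal.ofReal (gs t y) * ‖FT (ch t w) η - FT (ch t (tr y w)) η‖ₑ := by
  have hM0 := hw.M0
  -- the function of y
  set T : ℝ → ℂ := fun y => FT (ch t (tr y w)) η with hT
  have hTm : Measurable T := by
    rw [hT]
    apply FT_meas (fun y => ch t (tr y w)) _ (fun _ => η) measurable_const
    unfold ch tr
    exact (by fun_prop : Measurable fun p : ℝ × ℝ => cexp (((-(t * p.2 ^ 2) : ℝ) : ℂ) * I)).mul
      (hw.meas.comp (by fun_prop))
  set Q : ℝ × ℝ → ℂ := fun p => ((gs t p.1 : ℝ) : ℂ) * ((cexp (((-(p.2 * η) : ℝ) : ℂ) * I) *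
      cexp (((-(t * p.2 ^ 2) : ℝ) : ℂ) * I)) *
      cexp (-I * (p.1 * ((η + 2 * p.2 * t : ℝ) : ℂ) + p.1 ^ 2 * t)) * w p.2) with hQ
  have hQm : Measurable Q := by
    rw [hQ]
    have h1 : Measurable fun p : ℝ × ℝ => ((gs t p.1 : ℝ) : ℂ) :=
      Complex.measurable_ofReal.comp ((gs_cont t).measurable.comp measurable_fst)
    refine h1.mul (Measurable.mul ?_ (hw.meas.comp measurable_snd))
    fun_prop
  have hQn : ∀ p, ‖Q p‖ = gs t p.1 * ‖w p.2‖ := by
    intro p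
    rw [hQ]
    simp only
    rw [norm_mul, norm_mul, norm_mul, ph_norm, ph_norm2, one_mul, one_mul, Complex.norm_real,
      Real.norm_of_nonneg (gs_nn _ _)]
  have hQi : Integrable Q (volume.prod volume) := by
    refine ((gs_int t ht).mul_prod hw.int.norm).mono hQm.aestronglyMeasurable
      (ae_of_all _ fun p => ?_)
    rw [hQn, norm_mul, norm_norm, Real.norm_of_nonneg (gs_nn _ _)]
  have hTQ : ∀ y, ((gs t y : ℝ) : ℂ) * T y = ∫ z, Q (y, z) := by
    intro y
    rw [hT]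
    simp only
    rw [FT_tr, ← integral_const_mul]
  have hA : ∫ y, ((gs t y : ℝ) : ℂ) * T y = ∫ z, ∫ y, Q (y, z) := by
    simp only [hTQ]
    exact integral_integral_swap hQi
  have hAn : ‖∫ y, ((gs t y : ℝ) : ℂ) * T y‖ₑ ≤ ∫⁻ z, kk' t η z * ‖w z‖ₑ := by
    rw [hA]
    refine (enorm_integral_le_lintegral_enorm _).trans ?_
    apply lintegral_mono
    intro z
    simp only
    have h1 : ∫ y, Q (y, z) = (cexp (((-(z * η) : ℝ) : ℂ) * I) *
        cexp (((-(t * z ^ 2) : ℝ) : ℂ) * I)) * KK t (η + 2 * z * t) * w z := by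
      unfold KK
      rw [← integral_const_mul, ← integral_mul_const]
      apply integral_congr_ae
      refine ae_of_all _ fun y => ?_
      rw [hQ]
      simp only
      ring
    rw [h1, enorm_mul, enorm_mul]
    have h2 : ‖cexp (((-(z * η) : ℝ) : ℂ) * I) *
        cexp (((-(t * z ^ 2) : ℝ) : ℂ) * I)‖ₑ = 1 := by
      rw [← ofReal_norm, ph_norm, ENNReal.ofReal_one]
    rw [h2, one_mul]
    gcongr
    unfold kk'
    rw [← ofReal_norm]
    exact ENNReal.ofReal_le_ofReal (KK_le t _ ht)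
  have hTi : Integrable (fun y => ((gs t y : ℝ) : ℂ) * T y) := by
    simp only [hTQ]
    exact hQi.integral_prod_left
  have hgi : Integrable (fun y => ((gs t y : ℝ) : ℂ) * FT (ch t w) η) :=
    (gs_int t ht).ofReal.mul_const _
  have e0 : FT (ch t w) η = (∫ y, ((gs t y : ℝ) : ℂ) * T y) +
      ∫ y, ((gs t y : ℝ) : ℂ) * (FT (ch t w) η - T y) := by
    have h1 : ∫ y, ((gs t y : ℝ) : ℂ) * (FT (ch t w) η - T y) =
        (∫ y, ((gs t y : ℝ) : ℂ) * FT (ch t w) η) - ∫ y, ((gs t y : ℝ) : ℂ) * T y := by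
      rw [← integral_sub hgi hTi]
      apply integral_congr_ae
      refine ae_of_all _ fun y => ?_
      simp only
      ring
    have h2 : ∫ y, ((gs t y : ℝ) : ℂ) = ((∫ y, gs t y : ℝ) : ℂ) := integral_complex_ofReal
    rw [h1, integral_mul_const, h2, gs_one t ht]
    push_cast
    ring
  calc ‖FT (ch t w) η‖ₑ = ‖(∫ y, ((gs t y : ℝ) : ℂ) * T y) +
      ∫ y, ((gs t y : ℝ) : ℂ) * (FT (ch t w) η - T y)‖ₑ := by rw [← e0]
    _ ≤ ‖∫ y, ((gs t y : ℝ) : ℂ) * T y‖ₑ +
        ‖∫ y, ((gs t y : ℝ) : ℂ) * (FT (ch t w) η - T y)‖ₑ := enorm_add_le _ _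
    _ ≤ _ := by
        refine add_le_add hAn ((enorm_integral_le_lintegral_enorm _).trans ?_)
        apply lintegral_mono
        intro y
        simp only
        rw [enorm_mul]
        apply le_of_eq
        congr 1
        rw [← ofReal_norm, Complex.norm_real, Real.norm_of_nonneg (gs_nn _ _)]

end Pool.Agent.H147R3.BV
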