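import Mathlib
import Pool.Agent.H147R3.BV.Two
set_option autoImplicit false

/-! The two parts of the extension operator at a fixed time. -/

namespace Pool.Agent.H147R3.BV

open MeasureTheory Set Complex Filter Topology
open Pool.Agent.H147R3.PE
open scoped ENNReal

/-- the main part, one section -/
lemma main_sec {w : ℝ → ℂ} (hw : Measurable w) (t q : ℝ) (ht : t ≠ 0) (hq : 1 < q) :
    ∫⁻ η, (∫⁻ z, kk' t η z * ‖w z‖ₑ) ^ q ≤
      ENNReal.ofReal (Real.sqrt (2 * Real.pi / |t|)) ^ (q - 1) *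
        ENNReal.ofReal (Real.sqrt (8 * Real.pi * |t|)) * ∫⁻ z, ‖w z‖ₑ ^ q := by
  have hk : Measurable fun p : ℝ × ℝ => kk' t p.1 p.2 := kk'_meas t
  have hm : Measurable fun p : ℝ × ℝ => kk' t p.1 p.2 * ‖w p.2‖ₑ ^ q :=
    hk.mul ((hw.comp measurable_snd).enorm.pow_const q)
  have hkz : ∀ η, Measurable fun z => kk' t η z := by
    intro η
    unfold kk'
    fun_prop
  have hkη : ∀ z, Measurable fun η => kk' t η z := by
    intro z
    unfold kk'
    fun_prop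
  have h1 : ∀ η, (∫⁻ z, kk' t η z * ‖w z‖ₑ) ^ q ≤
      ENNReal.ofReal (Real.sqrt (2 * Real.pi / |t|)) ^ (q - 1) *
        ∫⁻ z, kk' t η z * ‖w z‖ₑ ^ q := by
    intro η
    rw [← kk'_z t η ht]
    exact jens volume q hq (fun z => kk' t η z) (fun z => ‖w z‖ₑ) (hkz η) hw.enorm
  calc ∫⁻ η, (∫⁻ z, kk' t η z * ‖w z‖ₑ) ^ q
      ≤ ∫⁻ η, ENNReal.ofReal (Real.sqrt (2 * Real.pi / |t|)) ^ (q - 1) *
        ∫⁻ z, kk' t η z * ‖w z‖ₑ ^ q := lintegral_mono h1
    _ = ENNReal.ofReal (Real.sqrt (2 * Real.pi / |t|)) ^ (q - 1) *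
        ∫⁻ η, ∫⁻ z, kk' t η z * ‖w z‖ₑ ^ q := lintegral_const_mul _ hm.lintegral_prod_right'
    _ = ENNReal.ofReal (Real.sqrt (2 * Real.pi / |t|)) ^ (q - 1) *
        ∫⁻ z, ∫⁻ η, kk' t η z * ‖w z‖ₑ ^ q := by
        rw [lintegral_lintegral_swap hm.aemeasurable]
    _ = ENNReal.ofReal (Real.sqrt (2 * Real.pi / |t|)) ^ (q - 1) *
        ∫⁻ z, ENNReal.ofReal (Real.sqrt (8 * Real.pi * |t|)) * ‖w z‖ₑ ^ q := by
        congr 1
        apply lintegral_congr
        intro z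
        rw [lintegral_mul_const _ (hkη z), kk'_η t z ht]
    _ = _ := by
        rw [lintegral_const_mul _ (hw.enorm.pow_const q)]
        exact (mul_assoc _ _ _).symm

/-- the difference of a function and its translate in the second variable -/
def df (y : ℝ) (f : ℝ × ℝ → ℂ) : ℝ × ℝ → ℂ := fun x => f x - f (x.1, x.2 - y)

lemma gg_df {M : ℝ} {f : ℝ × ℝ → ℂ} (hf : BS2 M f) (t ξ y z : ℝ) :
    gg f t ξ z - tr y (gg f t ξ) z = FT (ch t (fun x => df y f (x, z))) ξ := by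
  unfold tr gg FT ch df
  have h1 : ∀ z, Integrable fun s : ℝ => cexp (((-(s * ξ) : ℝ) : ℂ) * I) *
      (cexp (((-(t * s ^ 2) : ℝ) : ℂ) * I) * f (s, z)) := by
    intro z
    refine (hf.sec z).int.norm.mono' ?_ (ae_of_all _ fun s => ?_)
    · apply Measurable.aestronglyMeasurable
      exact (by fun_prop : Measurable fun s : ℝ => cexp (((-(s * ξ) : ℝ) : ℂ) * I)).mul
        ((by fun_prop : Measurable fun s : ℝ => cexp (((-(t * s ^ 2) : ℝ) : ℂ) * I)).mul
          (hf.sec z).meas)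
    · rw [norm_mul, norm_mul, Complex.norm_exp_ofReal_mul_I, Complex.norm_exp_ofReal_mul_I,
        one_mul, one_mul]
  rw [← integral_sub (h1 z) (h1 (z - y))]
  apply integral_congr_ae
  refine ae_of_all _ fun s => ?_
  simp only
  ring

lemma df_sec {M : ℝ} {f : ℝ × ℝ → ℂ} (hf : BS2 M f) (y z : ℝ) :
    BS (2 * M) (fun x => df y f (x, z)) := by
  refine ⟨?_, fun x => ?_, fun x hx => ?_⟩
  · unfold df
    exact (hf.meas.comp (by fun_prop)).sub (hf.meas.comp (by fun_prop))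
  · unfold df
    refine (norm_sub_le _ _).trans ?_
    have h1 := hf.bd (x, z)
    have h2 := hf.bd (x, z - y)
    simp only at h1 h2 ⊢
    linarith
  · unfold df
    simp only
    rw [hf.supp1 (x, z) hx, hf.supp1 (x, z - y) hx, sub_zero]

/-- the difference of the extensions -/
noncomputable def DD (f : ℝ × ℝ → ℂ) (t y ξ η : ℝ) : ℂ :=
  FF f t t ξ η - FT (ch t (tr y (gg f t ξ))) η

lemma tr_int {w : ℝ → ℂ} (h : Integrable w) (y : ℝ) : Integrable (tr y w) := h.comp_sub_right y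

lemma tr_memLp {w : ℝ → ℂ} (h : MemLp w 2) (y : ℝ) : MemLp (tr y w) 2 :=
  h.comp_measurePreserving (measurePreserving_sub_right volume y)

lemma ch_int {w : ℝ → ℂ} (h : Integrable w) (t : ℝ) : Integrable (ch t w) := by
  refine h.norm.mono' ?_ (ae_of_all _ fun s => (ch_norm t w s).le)
  unfold ch
  exact ((by fun_prop : Measurable fun z : ℝ =>
    cexp (((-(t * z ^ 2) : ℝ) : ℂ) * I)).aestronglyMeasurable).mul h.aestronglyMeasurable

lemma ch_memLp {w : ℝ → ℂ} (h : MemLp w 2) (t : ℝ) : MemLp (ch t w) 2 := by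
  refine h.mono ?_ (ae_of_all _ fun s => (ch_norm t w s).le)
  unfold ch
  exact ((by fun_prop : Measurable fun z : ℝ =>
    cexp (((-(t * z ^ 2) : ℝ) : ℂ) * I)).aestronglyMeasurable).mul h.aestronglyMeasurable

lemma DD_eq {M : ℝ} {f : ℝ × ℝ → ℂ} (hf : BS2 M f) (t y ξ η : ℝ) :
    DD f t y ξ η = FT (ch t (fun z => gg f t ξ z - tr y (gg f t ξ) z)) η := by
  have hw := gg_BS hf t ξ
  unfold DD FF
  have i1 : ∀ v : ℝ → ℂ, Integrable v → Integrable fun s : ℝ =>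
      cexp (((-(s * η) : ℝ) : ℂ) * I) * ch t v s := by
    intro v hv
    refine (ch_int hv t).norm.mono' ?_ (ae_of_all _ fun s => ?_)
    · exact ((by fun_prop : Measurable fun s : ℝ =>
        cexp (((-(s * η) : ℝ) : ℂ) * I)).aestronglyMeasurable).mul
        (ch_int hv t).aestronglyMeasurable
    · rw [norm_mul, Complex.norm_exp_ofReal_mul_I, one_mul]
  unfold FT
  rw [← integral_sub (i1 _ hw.int) (i1 _ (tr_int hw.int y))]
  apply integral_congr_ae
  refine ae_of_all _ fun s => ?_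
  unfold ch
  simp only
  ring

/-- sup bound -/
lemma DD_sup {M : ℝ} {f : ℝ × ℝ → ℂ} (hf : BS2 M f) (t y ξ η : ℝ) :
    ‖DD f t y ξ η‖ₑ ≤ ∫⁻ z, ∫⁻ x, ‖df y f (x, z)‖ₑ := by
  rw [DD_eq hf]
  refine (FT_le _ _).trans (lintegral_mono fun z => ?_)
  rw [ch_enorm, gg_df hf]
  refine (FT_le _ _).trans (lintegral_mono fun x => ?_)
  rw [ch_enorm]

/-- second moment -/
lemma DD_two {M : ℝ} {f : ℝ × ℝ → ℂ} (hf : BS2 M f) (t y : ℝ) :
    ∫⁻ ξ, ∫⁻ η, ‖DD f t y ξ η‖ₑ ^ 2 =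
      ENNReal.ofReal (2 * Real.pi) ^ 2 * ∫⁻ z, ∫⁻ x, ‖df y f (x, z)‖ₑ ^ 2 := by
  have e1 : ∀ ξ, ∫⁻ η, ‖DD f t y ξ η‖ₑ ^ 2 =
      ENNReal.ofReal (2 * Real.pi) * ∫⁻ z, ‖FT (ch t (fun x => df y f (x, z))) ξ‖ₑ ^ 2 := by
    intro ξ
    have hw := gg_BS hf t ξ
    simp only [DD_eq hf]
    have hi : Integrable fun z => gg f t ξ z - tr y (gg f t ξ) z := hw.int.sub (tr_int hw.int y)
    have h2 : MemLp (fun z => gg f t ξ z - tr y (gg f t ξ) z) 2 :=
      (hw.memLp 2).sub (tr_memLp (hw.memLp 2) y)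
    rw [planch _ (ch_int hi t) (ch_memLp h2 t)]
    congr 1
    apply lintegral_congr
    intro z
    rw [ch_enorm, gg_df hf]
  simp only [e1]
  have hdm : Measurable fun p : ℝ × ℝ => df y f (p.2, p.1) := by
    unfold df
    exact (hf.meas.comp (by fun_prop)).sub (hf.meas.comp (by fun_prop))
  have hm : Measurable fun p : ℝ × ℝ => ‖FT (ch t (fun x => df y f (x, p.2))) p.1‖ₑ ^ 2 := by
    apply Measurable.pow_const
    apply Measurable.enorm
    apply FT_meas (fun p : ℝ × ℝ => ch t (fun x => df y f (x, p.2))) _ (fun p => p.1) measurable_fst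
    unfold ch
    exact (by fun_prop : Measurable fun p : (ℝ × ℝ) × ℝ =>
      cexp (((-(t * p.2 ^ 2) : ℝ) : ℂ) * I)).mul
      (hdm.comp ((measurable_snd.comp measurable_fst).prodMk measurable_snd))
  rw [lintegral_const_mul _ hm.lintegral_prod_right', lintegral_lintegral_swap hm.aemeasurable]
  have e2 : ∀ z, ∫⁻ ξ, ‖FT (ch t (fun x => df y f (x, z))) ξ‖ₑ ^ 2 =
      ENNReal.ofReal (2 * Real.pi) * ∫⁻ x, ‖df y f (x, z)‖ₑ ^ 2 :=
    fun z => two_ch (df_sec hf y z) t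
  simp only [e2]
  rw [lintegral_const_mul _ ((hdm.enorm.pow_const 2).lintegral_prod_right'), ← mul_assoc, sq]

end Pool.Agent.H147R3.BV
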