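import Mathlib
import Pool.Agent.H147R3.BV.Three
set_option autoImplicit false

/-! The `q`-th moment at a fixed time. -/

namespace Pool.Agent.H147R3.BV

open MeasureTheory Set Complex Filter Topology
open Pool.Agent.H147R3.PE
open scoped ENNReal

lemma DD_jm {f : ℝ × ℝ → ℂ} (hf : Measurable f) (t : ℝ) {Λ : Type*} [MeasurableSpace Λ]
    {a b c : Λ → ℝ} (ha : Measurable a) (hb : Measurable b) (hc : Measurable c) :
    Measurable fun l => DD f t (a l) (b l) (c l) := by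
  unfold DD
  refine (FF_jm hf (a := fun _ => t) (b := fun _ => t) (c := b) (d := c) measurable_const
    measurable_const hb hc).sub ?_
  apply FT_meas (fun l => ch t (tr (a l) (gg f t (b l)))) _ c hc
  unfold ch tr
  refine (by fun_prop : Measurable fun p : Λ × ℝ =>
      cexp (((-(t * p.2 ^ 2) : ℝ) : ℂ) * I)).mul ?_
  exact gg_jm hf (a := fun _ => t) (b := fun p : Λ × ℝ => b p.1)
    (c := fun p : Λ × ℝ => p.2 - a p.1) measurable_const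
    (hb.comp measurable_fst) (measurable_snd.sub (ha.comp measurable_fst))

/-- moment of the differences -/
lemma DD_q {M : ℝ} {f : ℝ × ℝ → ℂ} (hf : BS2 M f) (t y q : ℝ) (hq : 2 < q) (S T : ℝ≥0∞)
    (hS : ∫⁻ z, ∫⁻ x, ‖df y f (x, z)‖ₑ ≤ S) (hT : ∫⁻ z, ∫⁻ x, ‖df y f (x, z)‖ₑ ^ 2 ≤ T) :
    ∫⁻ ξ, ∫⁻ η, ‖DD f t y ξ η‖ₑ ^ q ≤ S ^ (q - 2) * (ENNReal.ofReal (2 * Real.pi) ^ 2 * T) := by
  have h1 : ∀ ξ η, ‖DD f t y ξ η‖ₑ ^ q ≤ S ^ (q - 2) * ‖DD f t y ξ η‖ₑ ^ 2 := by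
    intro ξ η
    have e : ‖DD f t y ξ η‖ₑ ^ q = ‖DD f t y ξ η‖ₑ ^ (q - 2) * ‖DD f t y ξ η‖ₑ ^ 2 := by
      rw [← ENNReal.rpow_natCast _ 2, ← ENNReal.rpow_add_of_nonneg _ _ (by linarith) (by norm_num)]
      congr 1
      push_cast
      ring
    rw [e]
    have h0 : ‖DD f t y ξ η‖ₑ ≤ S := (DD_sup hf t y ξ η).trans hS
    have h2 : ‖DD f t y ξ η‖ₑ ^ (q - 2) ≤ S ^ (q - 2) := ENNReal.rpow_le_rpow h0 (by linarith)
    exact mul_le_mul_left h2 _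
  have hm : Measurable fun p : ℝ × ℝ => ‖DD f t y p.1 p.2‖ₑ ^ 2 := by
    exact (DD_jm hf.meas t (a := fun _ => y) (b := fun p : ℝ × ℝ => p.1)
      (c := fun p : ℝ × ℝ => p.2) measurable_const measurable_fst measurable_snd).enorm.pow_const 2
  have hm1 : ∀ ξ, Measurable fun η : ℝ => ‖DD f t y ξ η‖ₑ ^ 2 := by
    intro ξ
    exact (DD_jm hf.meas t (a := fun _ => y) (b := fun _ : ℝ => ξ)
      (c := fun η : ℝ => η) measurable_const measurable_const measurable_id).enorm.pow_const 2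
  calc ∫⁻ ξ, ∫⁻ η, ‖DD f t y ξ η‖ₑ ^ q
      ≤ ∫⁻ ξ, ∫⁻ η, S ^ (q - 2) * ‖DD f t y ξ η‖ₑ ^ 2 :=
        lintegral_mono fun ξ => lintegral_mono fun η => h1 ξ η
    _ = S ^ (q - 2) * ∫⁻ ξ, ∫⁻ η, ‖DD f t y ξ η‖ₑ ^ 2 := by
        rw [← lintegral_const_mul _ hm.lintegral_prod_right']
        apply lintegral_congr
        intro ξ
        exact lintegral_const_mul _ (hm1 ξ)
    _ ≤ _ := by
        rw [DD_two hf]
        gcongr

/-- the remainder -/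
lemma rem_q {M : ℝ} {f : ℝ × ℝ → ℂ} (hf : BS2 M f) (t q a b V W : ℝ) (ht : t ≠ 0) (hq : 2 < q)
    (hV : 0 ≤ V) (hW : 0 ≤ W) (ha : 0 ≤ a) (hb : 0 ≤ b)
    (h1 : ∀ y : ℝ, ∫⁻ z, ∫⁻ x, ‖df y f (x, z)‖ₑ ≤ ENNReal.ofReal (V * |y| ^ a))
    (h2 : ∀ y : ℝ, ∫⁻ z, ∫⁻ x, ‖df y f (x, z)‖ₑ ^ 2 ≤ ENNReal.ofReal (W * |y| ^ b)) :
    ∫⁻ ξ, ∫⁻ η, (∫⁻ y, ENNReal.ofReal (gs t y) * ‖DD f t y ξ η‖ₑ) ^ q ≤
      ENNReal.ofReal (2 * Real.pi) ^ 2 * ENNReal.ofReal (V ^ (q - 2) * W) *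
        ENNReal.ofReal (2 * ck (a * (q - 2) + b) * |t| ^ (-((a * (q - 2) + b) / 2))) := by
  have hgm : Measurable fun y => ENNReal.ofReal (gs t y) :=
    (gs_cont t).measurable.ennreal_ofReal
  have hκ : 0 ≤ a * (q - 2) + b := add_nonneg (mul_nonneg ha (by linarith)) hb
  have hD3 : ∀ {Λ : Type} [MeasurableSpace Λ] {a b c : Λ → ℝ}, Measurable a → Measurable b →
      Measurable c → Measurable fun l =>
        ENNReal.ofReal (gs t (a l)) * ‖DD f t (a l) (b l) (c l)‖ₑ ^ q := by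
    intro Λ _ a b c ha hb hc
    exact (hgm.comp ha).mul ((DD_jm hf.meas t ha hb hc).enorm.pow_const q)
  have hJ : ∀ ξ η, (∫⁻ y, ENNReal.ofReal (gs t y) * ‖DD f t y ξ η‖ₑ) ^ q ≤
      ∫⁻ y, ENNReal.ofReal (gs t y) * ‖DD f t y ξ η‖ₑ ^ q := by
    intro ξ η
    have hDy : Measurable fun y : ℝ => ‖DD f t y ξ η‖ₑ :=
      (DD_jm hf.meas t (a := fun y : ℝ => y) (b := fun _ => ξ) (c := fun _ => η) measurable_id
        measurable_const measurable_const).enorm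
    have := jens volume q (by linarith) (fun y => ENNReal.ofReal (gs t y))
      (fun y => ‖DD f t y ξ η‖ₑ) hgm hDy
    rwa [gs_lone t ht, ENNReal.one_rpow, one_mul] at this
  have hsw : ∫⁻ ξ, ∫⁻ η, ∫⁻ y, ENNReal.ofReal (gs t y) * ‖DD f t y ξ η‖ₑ ^ q =
      ∫⁻ y, ∫⁻ ξ, ∫⁻ η, ENNReal.ofReal (gs t y) * ‖DD f t y ξ η‖ₑ ^ q := by
    have hmξ : ∀ ξ : ℝ, Measurable fun p : ℝ × ℝ =>
        ENNReal.ofReal (gs t p.2) * ‖DD f t p.2 ξ p.1‖ₑ ^ q := by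
      intro ξ
      exact hD3 (a := fun p : ℝ × ℝ => p.2) (b := fun _ => ξ) (c := fun p : ℝ × ℝ => p.1)
        measurable_snd measurable_const measurable_fst
    have e1 : ∀ ξ : ℝ, ∫⁻ η, ∫⁻ y, ENNReal.ofReal (gs t y) * ‖DD f t y ξ η‖ₑ ^ q =
        ∫⁻ y, ∫⁻ η, ENNReal.ofReal (gs t y) * ‖DD f t y ξ η‖ₑ ^ q :=
      fun ξ => lintegral_lintegral_swap (hmξ ξ).aemeasurable
    simp only [e1]
    have hm4 : Measurable fun p : (ℝ × ℝ) × ℝ =>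
        ENNReal.ofReal (gs t p.1.2) * ‖DD f t p.1.2 p.1.1 p.2‖ₑ ^ q := by
      exact hD3 (a := fun p : (ℝ × ℝ) × ℝ => p.1.2) (b := fun p : (ℝ × ℝ) × ℝ => p.1.1)
        (c := fun p : (ℝ × ℝ) × ℝ => p.2) (measurable_snd.comp measurable_fst)
        (measurable_fst.comp measurable_fst) measurable_snd
    have hm5 : Measurable fun p : ℝ × ℝ =>
        ∫⁻ η, ENNReal.ofReal (gs t p.2) * ‖DD f t p.2 p.1 η‖ₑ ^ q := hm4.lintegral_prod_right'
    exact lintegral_lintegral_swap hm5.aemeasurable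
  have hy : ∀ y, ∫⁻ ξ, ∫⁻ η, ENNReal.ofReal (gs t y) * ‖DD f t y ξ η‖ₑ ^ q ≤
      (ENNReal.ofReal (2 * Real.pi) ^ 2 * ENNReal.ofReal (V ^ (q - 2) * W)) *
        (ENNReal.ofReal (gs t y) * ENNReal.ofReal (|y| ^ (a * (q - 2) + b))) := by
    intro y
    simp only [lintegral_const_mul' _ _ (ENNReal.ofReal_ne_top (r := gs t y))]
    have h3 := DD_q hf t y q hq _ _ (h1 y) (h2 y)
    have e3 : ENNReal.ofReal (V * |y| ^ a) ^ (q - 2) * (ENNReal.ofReal (2 * Real.pi) ^ 2 *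
        ENNReal.ofReal (W * |y| ^ b)) ≤ (ENNReal.ofReal (2 * Real.pi) ^ 2 *
        ENNReal.ofReal (V ^ (q - 2) * W)) * ENNReal.ofReal (|y| ^ (a * (q - 2) + b)) := by
      have hr : (V * |y| ^ a) ^ (q - 2) * (W * |y| ^ b) ≤
          V ^ (q - 2) * W * |y| ^ (a * (q - 2) + b) := by
        have h5 : |y| ^ (a * (q - 2)) * |y| ^ b ≤ |y| ^ (a * (q - 2) + b) := by
          rcases eq_or_ne y 0 with hy0 | hy0
          · subst hy0
            rw [abs_zero]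
            rcases eq_or_lt_of_le hb with hb0 | hb0
            · rw [← hb0]
              simp
            · rw [Real.zero_rpow hb0.ne', mul_zero]
              positivity
          · rw [Real.rpow_add (abs_pos.2 hy0)]
        rw [Real.mul_rpow hV (by positivity), ← Real.rpow_mul (abs_nonneg y)]
        calc V ^ (q - 2) * |y| ^ (a * (q - 2)) * (W * |y| ^ b) =
            V ^ (q - 2) * W * (|y| ^ (a * (q - 2)) * |y| ^ b) := by ring
          _ ≤ _ := mul_le_mul_of_nonneg_left h5 (by positivity)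
      rw [ENNReal.ofReal_rpow_of_nonneg (by positivity) (by linarith)]
      calc ENNReal.ofReal ((V * |y| ^ a) ^ (q - 2)) * (ENNReal.ofReal (2 * Real.pi) ^ 2 *
            ENNReal.ofReal (W * |y| ^ b)) = ENNReal.ofReal (2 * Real.pi) ^ 2 *
            (ENNReal.ofReal ((V * |y| ^ a) ^ (q - 2)) * ENNReal.ofReal (W * |y| ^ b)) := by ring
        _ = ENNReal.ofReal (2 * Real.pi) ^ 2 *
            ENNReal.ofReal ((V * |y| ^ a) ^ (q - 2) * (W * |y| ^ b)) := by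
            rw [ENNReal.ofReal_mul (p := (V * |y| ^ a) ^ (q - 2)) (by positivity)]
        _ ≤ ENNReal.ofReal (2 * Real.pi) ^ 2 *
            ENNReal.ofReal (V ^ (q - 2) * W * |y| ^ (a * (q - 2) + b)) :=
            mul_le_mul_right (ENNReal.ofReal_le_ofReal hr) _
        _ = _ := by
            rw [ENNReal.ofReal_mul (p := V ^ (q - 2) * W) (by positivity), mul_assoc]
    calc ENNReal.ofReal (gs t y) * ∫⁻ ξ, ∫⁻ η, ‖DD f t y ξ η‖ₑ ^ q
        ≤ ENNReal.ofReal (gs t y) * ((ENNReal.ofReal (2 * Real.pi) ^ 2 *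
          ENNReal.ofReal (V ^ (q - 2) * W)) * ENNReal.ofReal (|y| ^ (a * (q - 2) + b))) :=
          mul_le_mul_right (h3.trans e3) _
      _ = _ := by ring
  calc ∫⁻ ξ, ∫⁻ η, (∫⁻ y, ENNReal.ofReal (gs t y) * ‖DD f t y ξ η‖ₑ) ^ q
      ≤ ∫⁻ ξ, ∫⁻ η, ∫⁻ y, ENNReal.ofReal (gs t y) * ‖DD f t y ξ η‖ₑ ^ q :=
        lintegral_mono fun ξ => lintegral_mono fun η => hJ ξ η
    _ = ∫⁻ y, ∫⁻ ξ, ∫⁻ η, ENNReal.ofReal (gs t y) * ‖DD f t y ξ η‖ₑ ^ q := hsw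
    _ ≤ ∫⁻ y, (ENNReal.ofReal (2 * Real.pi) ^ 2 * ENNReal.ofReal (V ^ (q - 2) * W)) *
        (ENNReal.ofReal (gs t y) * ENNReal.ofReal (|y| ^ (a * (q - 2) + b))) := lintegral_mono hy
    _ = (ENNReal.ofReal (2 * Real.pi) ^ 2 * ENNReal.ofReal (V ^ (q - 2) * W)) *
        ∫⁻ y, ENNReal.ofReal (gs t y) * ENNReal.ofReal (|y| ^ (a * (q - 2) + b)) := by
        apply lintegral_const_mul' _ _
        exact ENNReal.mul_ne_top (ENNReal.pow_ne_top ENNReal.ofReal_ne_top) ENNReal.ofReal_ne_top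
    _ ≤ _ := mul_le_mul_right (moment t _ ht hκ) _

end Pool.Agent.H147R3.BV
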