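import Mathlib
import Pool.Agent.H147R3.BV.Four
set_option autoImplicit false

/-! Integration over time. -/

namespace Pool.Agent.H147R3.BV

open MeasureTheory Set Complex Filter Topology
open Pool.Agent.H147R3.PE
open Pool.Agent.H728R3.SR (e1 Gq Gq_meas wt wt_meas' AA M2 rr0 rr0_mul e1_gen scale2 wtotal2 cut)
open scoped ENNReal

lemma rr0_neg : rr0 * (-(2 * Real.pi)) = 1 := by
  have := rr0_mul
  linarith

lemma scale_rr (G : ℝ → ℝ≥0∞) (hG : Measurable G) :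
    ∫⁻ x, G (rr0 * x) = ENNReal.ofReal (2 * Real.pi) * ∫⁻ x, G x := by
  have h1 := scale2 (fun x => G (rr0 * x)) (hG.comp (measurable_const_mul _))
  have h2 : ∀ x : ℝ, rr0 * -(2 * Real.pi * x) = x := by
    intro x
    calc rr0 * -(2 * Real.pi * x) = (rr0 * (-(2 * Real.pi))) * x := by ring
      _ = x := by rw [rr0_neg, one_mul]
  simp only [h2] at h1
  rw [h1, ← mul_assoc, ← ENNReal.ofReal_mul (by positivity), mul_inv_cancel₀ (by positivity),
    ENNReal.ofReal_one, one_mul]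

lemma FT_e1 {M : ℝ} {h : ℝ → ℂ} (hh : BS M h) (t ξ : ℝ) :
    FT (ch t h) ξ = e1 h (rr0 * ξ) (rr0 * t) := by
  rw [← e1_gen h hh.supp]
  unfold FT ch
  apply integral_congr_ae
  refine ae_of_all _ fun s => ?_
  simp only
  rw [← mul_assoc, ← Complex.exp_add, mul_comm]
  congr 2
  push_cast
  ring

lemma wt_low (γ e t : ℝ) (hγ0 : 0 < γ) (he : 0 ≤ e) (ht : 1 ≤ |t|) :
    ENNReal.ofReal (|t| ^ (-e)) ≤ wt γ e (rr0 * t) := by
  have h0 : 0 < |t| := by linarith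
  have h1 : ENNReal.ofReal (|t|⁻¹) ≤ AA γ (rr0 * t) := by
    unfold Pool.Agent.H728R3.SR.AA
    split_ifs with h
    · rw [← ENNReal.ofReal_one]
      exact ENNReal.ofReal_le_ofReal (inv_le_one_of_one_le₀ ht)
    · push Not at h
      apply ENNReal.ofReal_le_ofReal
      have h2 : |rr0 * t| ≤ |t| := by
        rw [abs_mul]
        have h3 : |rr0| ≤ 1 := by
          unfold Pool.Agent.H728R3.SR.rr0
          rw [abs_neg, abs_of_pos (by positivity)]
          apply inv_le_one_of_one_le₀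
          have := Real.pi_gt_three
          linarith
        nlinarith [abs_nonneg t]
      set u := |rr0 * t| with hu
      have hu0 : 0 < u := by linarith
      have h4 : u⁻¹ ≤ u ^ (γ / 2 - 1) := by
        rw [← Real.rpow_neg_one]
        exact Real.rpow_le_rpow_of_exponent_le h.le (by linarith)
      have h5 : |t|⁻¹ ≤ u⁻¹ := inv_anti₀ hu0 h2
      have h6 : 0 < u ^ (γ / 2 - 1) := by positivity
      linarith
  unfold Pool.Agent.H728R3.SR.wt
  calc ENNReal.ofReal (|t| ^ (-e)) = ENNReal.ofReal (|t|⁻¹) ^ e := by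
        rw [ENNReal.ofReal_rpow_of_nonneg (by positivity) he, Real.rpow_neg h0.le,
          Real.inv_rpow h0.le]
    _ ≤ _ := ENNReal.rpow_le_rpow h1 he

/-- constants -/
lemma cst (q t : ℝ) (ht : 0 < |t|) :
    Real.sqrt (2 * Real.pi / |t|) ^ (q - 1) * Real.sqrt (8 * Real.pi * |t|) =
      Real.sqrt (2 * Real.pi) ^ (q - 1) * Real.sqrt (8 * Real.pi) * |t| ^ (-(q / 2 - 1)) := by
  have h1 : Real.sqrt (2 * Real.pi / |t|) = Real.sqrt (2 * Real.pi) * |t| ^ (-(1 / 2) : ℝ) := by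
    rw [Real.sqrt_div (by positivity), Real.sqrt_eq_rpow |t|, Real.rpow_neg ht.le, div_eq_mul_inv]
  have h2 : Real.sqrt (8 * Real.pi * |t|) = Real.sqrt (8 * Real.pi) * |t| ^ ((1 / 2) : ℝ) := by
    rw [Real.sqrt_mul (by positivity), Real.sqrt_eq_rpow |t|]
  rw [h1, h2, Real.mul_rpow (by positivity) (by positivity), ← Real.rpow_mul ht.le]
  have h3 : |t| ^ (-(1 / 2) * (q - 1)) * |t| ^ ((1 / 2) : ℝ) = |t| ^ (-(q / 2 - 1)) := by
    rw [← Real.rpow_add ht]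
    congr 1
    ring
  calc _ = Real.sqrt (2 * Real.pi) ^ (q - 1) * Real.sqrt (8 * Real.pi) *
        (|t| ^ (-(1 / 2) * (q - 1)) * |t| ^ ((1 / 2) : ℝ)) := by ring
    _ = _ := by rw [h3]

/-- the time integral of the remainder -/
lemma time_int (p : ℝ) (hp : 1 < p) :
    ∫⁻ t in (Icc (-1 : ℝ) 1)ᶜ, ENNReal.ofReal (|t| ^ (-p)) ≤
      ENNReal.ofReal (2 ^ p) * ∫⁻ t : ℝ, ENNReal.ofReal ((1 + ‖t‖) ^ (-p)) := by
  have hm : Measurable fun t : ℝ => ENNReal.ofReal ((1 + ‖t‖) ^ (-p)) := by fun_prop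
  calc ∫⁻ t in (Icc (-1 : ℝ) 1)ᶜ, ENNReal.ofReal (|t| ^ (-p))
      ≤ ∫⁻ t in (Icc (-1 : ℝ) 1)ᶜ, ENNReal.ofReal (2 ^ p) * ENNReal.ofReal ((1 + ‖t‖) ^ (-p)) := by
        apply setLIntegral_mono (hm.const_mul _)
        intro t ht
        have h1 : 1 < |t| := by
          by_contra h
          push Not at h
          exact ht (abs_le.1 h)
        rw [← ENNReal.ofReal_mul (by positivity)]
        apply ENNReal.ofReal_le_ofReal
        have h2 : (2 : ℝ) ^ p * (1 + ‖t‖) ^ (-p) = ((1 + |t|) / 2) ^ (-p) := by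
          rw [Real.norm_eq_abs, Real.div_rpow (by positivity) (by norm_num),
            Real.rpow_neg (by norm_num : (0 : ℝ) ≤ 2), div_inv_eq_mul]
          ring
        rw [h2]
        apply Real.rpow_le_rpow_of_nonpos (by positivity) (by linarith) (by linarith)
    _ ≤ ∫⁻ t : ℝ, ENNReal.ofReal (2 ^ p) * ENNReal.ofReal ((1 + ‖t‖) ^ (-p)) :=
        setLIntegral_le_lintegral _ _
    _ = _ := lintegral_const_mul _ hm

lemma time_ne (p : ℝ) (hp : 1 < p) : ∫⁻ t : ℝ, ENNReal.ofReal ((1 + ‖t‖) ^ (-p)) ≠ ⊤ := by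
  have := finite_integral_one_add_norm (E := ℝ) (μ := volume) (r := p) (by simpa using hp)
  exact this.ne

/-- the weighted planar estimate for the sections -/
lemma sections (q : ℝ) (hq : 3 < q) (h4 : q < 4) : ∃ K : ℝ≥0∞, K ≠ ⊤ ∧
    ∀ (M : ℝ) (f : ℝ × ℝ → ℂ), 0 < M → BS2 M f →
      ∫⁻ t in (Icc (-1 : ℝ) 1)ᶜ, ENNReal.ofReal (|t| ^ (-(q / 2 - 1))) *
        ∫⁻ a, ∫⁻ z, ‖gg f t a z‖ₑ ^ q ≤ K * (ENNReal.ofReal (M ^ (q - 2)) * N2 f) := by
  obtain ⟨γ, hγ0, hγ1, K, hK, hKK⟩ := wtotal2 q hq h4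
  refine ⟨ENNReal.ofReal (2 * Real.pi) * ENNReal.ofReal (2 * Real.pi) * K,
    ENNReal.mul_ne_top (ENNReal.mul_ne_top ENNReal.ofReal_ne_top ENNReal.ofReal_ne_top) hK, ?_⟩
  intro M f hM hf
  have he : 0 ≤ q / 2 - 1 := by linarith
  have hgj : ∀ {Λ : Type} [MeasurableSpace Λ] {a b c : Λ → ℝ}, Measurable a → Measurable b →
      Measurable c → Measurable fun l => ‖gg f (a l) (b l) (c l)‖ₑ ^ q := by
    intro Λ _ a b c ha hb hc
    exact (gg_jm hf.meas ha hb hc).enorm.pow_const q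
  have hwm : Measurable fun t : ℝ => wt γ (q / 2 - 1) (rr0 * t) :=
    (wt_meas' γ (q / 2 - 1)).comp (measurable_const_mul _)
  -- swap a and z
  have hs1 : ∀ t, ∫⁻ a, ∫⁻ z, ‖gg f t a z‖ₑ ^ q = ∫⁻ z, ∫⁻ a, ‖gg f t a z‖ₑ ^ q := by
    intro t
    apply lintegral_lintegral_swap
    exact (hgj (a := fun _ : ℝ × ℝ => t) (b := fun p => p.1) (c := fun p => p.2) measurable_const
      measurable_fst measurable_snd).aemeasurable
  have hGm : Measurable fun p : ℝ × ℝ => ∫⁻ a, ‖gg f p.1 a p.2‖ₑ ^ q := by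
    have h1 := hgj (a := fun p : (ℝ × ℝ) × ℝ => p.1.1) (b := fun p => p.2) (c := fun p => p.1.2)
      (measurable_fst.comp measurable_fst) measurable_snd (measurable_snd.comp measurable_fst)
    exact h1.lintegral_prod_right'
  have hz : ∀ z, ∫⁻ t, wt γ (q / 2 - 1) (rr0 * t) * ∫⁻ a, ‖gg f t a z‖ₑ ^ q ≤
      ENNReal.ofReal (2 * Real.pi) * ENNReal.ofReal (2 * Real.pi) * K *
        (ENNReal.ofReal (M ^ (q - 2)) * ∫⁻ y, ‖f (y, z)‖ₑ ^ 2) := by
    intro z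
    set h : ℝ → ℂ := fun y => f (y, z) with hh
    have hb := hf.sec z
    have e1' : ∀ t, ∫⁻ a, ‖gg f t a z‖ₑ ^ q = ENNReal.ofReal (2 * Real.pi) * Gq h q (rr0 * t) := by
      intro t
      unfold gg
      have h1 : ∀ a, FT (ch t (fun y => f (y, z))) a = e1 h (rr0 * a) (rr0 * t) :=
        fun a => FT_e1 hb t a
      simp only [h1]
      have hmm : Measurable fun x : ℝ => ‖e1 h x (rr0 * t)‖ₑ ^ q := by
        have hc : Measurable fun x : ℝ => ((x, rr0 * t) : ℝ × ℝ) := by fun_prop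
        exact ((Pool.Agent.H728R3.SR.e1_meas hb.meas).comp hc).enorm.pow_const q
      exact scale_rr (fun x => ‖e1 h x (rr0 * t)‖ₑ ^ q) hmm
    simp only [e1']
    have hGq := Gq_meas hb.meas q
    have e2 : ∫⁻ t, wt γ (q / 2 - 1) (rr0 * t) * (ENNReal.ofReal (2 * Real.pi) *
        Gq h q (rr0 * t)) = ENNReal.ofReal (2 * Real.pi) * (ENNReal.ofReal (2 * Real.pi) *
        ∫⁻ t, wt γ (q / 2 - 1) t * Gq h q t) := by
      have hmA : Measurable fun t : ℝ => wt γ (q / 2 - 1) (rr0 * t) * Gq h q (rr0 * t) :=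
        hwm.mul (hGq.comp (measurable_const_mul _))
      rw [← scale_rr (fun t => wt γ (q / 2 - 1) t * Gq h q t) ((wt_meas' _ _).mul hGq)]
      rw [← lintegral_const_mul _ hmA]
      apply lintegral_congr
      intro t
      ring
    rw [e2]
    have h5 := hKK h M hM hb.meas hb.bd
    have h6 : M2 h ≤ ∫⁻ y, ‖f (y, z)‖ₑ ^ 2 := by
      unfold Pool.Agent.H728R3.SR.M2
      apply lintegral_mono
      intro y
      simp only
      have h7 : ‖cut h y‖ₑ ≤ ‖h y‖ₑ := by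
        unfold Pool.Agent.H728R3.SR.cut
        rw [← ofReal_norm, ← ofReal_norm]
        exact ENNReal.ofReal_le_ofReal (norm_indicator_le_norm_self _ _)
      exact pow_le_pow_left' h7 2
    calc _ ≤ ENNReal.ofReal (2 * Real.pi) * (ENNReal.ofReal (2 * Real.pi) *
          (K * (ENNReal.ofReal (M ^ (q - 2)) * ∫⁻ y, ‖f (y, z)‖ₑ ^ 2))) := by
          refine mul_le_mul_right (mul_le_mul_right (h5.trans ?_) _) _
          exact mul_le_mul_right (mul_le_mul_right h6 _) _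
      _ = _ := by ring
  have hN : Measurable fun z : ℝ => ∫⁻ y, ‖f (y, z)‖ₑ ^ 2 := by
    have h1 : Measurable fun p : ℝ × ℝ => ‖f (p.2, p.1)‖ₑ ^ 2 :=
      ((hf.meas.comp (by fun_prop))).enorm.pow_const 2
    exact h1.lintegral_prod_right'
  have hwG : Measurable fun p : ℝ × ℝ => wt γ (q / 2 - 1) (rr0 * p.1) *
      ∫⁻ a, ‖gg f p.1 a p.2‖ₑ ^ q := (hwm.comp measurable_fst).mul hGm
  calc ∫⁻ t in (Icc (-1 : ℝ) 1)ᶜ, ENNReal.ofReal (|t| ^ (-(q / 2 - 1))) *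
        ∫⁻ a, ∫⁻ z, ‖gg f t a z‖ₑ ^ q
      ≤ ∫⁻ t in (Icc (-1 : ℝ) 1)ᶜ, ∫⁻ z, wt γ (q / 2 - 1) (rr0 * t) *
        ∫⁻ a, ‖gg f t a z‖ₑ ^ q := by
        apply setLIntegral_mono hwG.lintegral_prod_right'
        intro t ht
        have h1 : 1 < |t| := by
          by_contra h
          push Not at h
          exact ht (abs_le.1 h)
        have hmz : Measurable fun z : ℝ => ∫⁻ a, ‖gg f t a z‖ₑ ^ q := by
          exact (hgj (a := fun _ : ℝ × ℝ => t) (b := fun p : ℝ × ℝ => p.2)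
            (c := fun p : ℝ × ℝ => p.1) measurable_const measurable_snd
            measurable_fst).lintegral_prod_right'
        have e5 : ∫⁻ z, wt γ (q / 2 - 1) (rr0 * t) * ∫⁻ a, ‖gg f t a z‖ₑ ^ q =
            wt γ (q / 2 - 1) (rr0 * t) * ∫⁻ z, ∫⁻ a, ‖gg f t a z‖ₑ ^ q :=
          lintegral_const_mul _ hmz
        rw [hs1]
        refine le_trans ?_ (le_of_eq e5.symm)
        exact mul_le_mul_left (wt_low γ _ t hγ0 he h1.le) _
    _ ≤ ∫⁻ t, ∫⁻ z, wt γ (q / 2 - 1) (rr0 * t) * ∫⁻ a, ‖gg f t a z‖ₑ ^ q :=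
        setLIntegral_le_lintegral _ _
    _ = ∫⁻ z, ∫⁻ t, wt γ (q / 2 - 1) (rr0 * t) * ∫⁻ a, ‖gg f t a z‖ₑ ^ q :=
        lintegral_lintegral_swap hwG.aemeasurable
    _ ≤ ∫⁻ z, ENNReal.ofReal (2 * Real.pi) * ENNReal.ofReal (2 * Real.pi) * K *
        (ENNReal.ofReal (M ^ (q - 2)) * ∫⁻ y, ‖f (y, z)‖ₑ ^ 2) := lintegral_mono hz
    _ = _ := by
        unfold N2
        rw [lintegral_const_mul _ (hN.const_mul _), lintegral_const_mul _ hN]

end Pool.Agent.H147R3.BV
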