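import Mathlib
import Pool.Agent.H147R3.BV.Five
set_option autoImplicit false

/-! Assembly. -/

namespace Pool.Agent.H147R3.BV

open MeasureTheory Set Complex Filter Topology
open Pool.Agent.H147R3.PE
open scoped ENNReal

lemma dil_one (f : ℝ × ℝ → ℂ) : dil 1 f = f := by
  unfold dil
  simp

/-- the moment at time `t` -/
noncomputable def PP (f : ℝ × ℝ → ℂ) (q t : ℝ) : ℝ≥0∞ := ∫⁻ a, ∫⁻ η, ‖FF f t t a η‖ₑ ^ q

lemma FFq_m {f : ℝ × ℝ → ℂ} (hf : Measurable f) (q : ℝ) {Λ : Type*} [MeasurableSpace Λ]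
    {a b c : Λ → ℝ} (ha : Measurable a) (hb : Measurable b) (hc : Measurable c) :
    Measurable fun l => ‖FF f (a l) (a l) (b l) (c l)‖ₑ ^ q :=
  (FF_jm hf ha ha hb hc).enorm.pow_const q

lemma ext_PP {M : ℝ} {f : ℝ × ℝ → ℂ} (hf : BS2 M f) (q : ℝ) (hq : 1 ≤ q) :
    ∫⁻ ξ : ℝ × ℝ × ℝ, ‖PE.ext f ξ‖ₑ ^ q ≤ ∫⁻ t, PP f q t := by
  have h1 := ext_le1 hf q hq 1 le_rfl
  rw [dil_one] at h1
  simp only [one_pow, inv_one, mul_one] at h1
  refine h1.trans (le_of_eq ?_)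
  unfold PP
  have hm : Measurable fun p : (ℝ × ℝ) × ℝ => ‖FF f p.1.2 p.1.2 p.1.1 p.2‖ₑ ^ q :=
    FFq_m hf.meas q (a := fun p : (ℝ × ℝ) × ℝ => p.1.2) (b := fun p : (ℝ × ℝ) × ℝ => p.1.1)
      (c := fun p : (ℝ × ℝ) × ℝ => p.2) (measurable_snd.comp measurable_fst)
      (measurable_fst.comp measurable_fst) measurable_snd
  have hm2 : Measurable fun p : ℝ × ℝ => ∫⁻ η, ‖FF f p.2 p.2 p.1 η‖ₑ ^ q :=
    hm.lintegral_prod_right'
  exact lintegral_lintegral_swap hm2.aemeasurable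

lemma PP_meas {f : ℝ × ℝ → ℂ} (hf : Measurable f) (q : ℝ) : Measurable (PP f q) := by
  have hm : Measurable fun p : (ℝ × ℝ) × ℝ => ‖FF f p.1.1 p.1.1 p.1.2 p.2‖ₑ ^ q :=
    FFq_m hf q (a := fun p : (ℝ × ℝ) × ℝ => p.1.1) (b := fun p : (ℝ × ℝ) × ℝ => p.1.2)
      (c := fun p : (ℝ × ℝ) × ℝ => p.2) (measurable_fst.comp measurable_fst)
      (measurable_snd.comp measurable_fst) measurable_snd
  have hm2 : Measurable fun p : ℝ × ℝ => ∫⁻ η, ‖FF f p.1 p.1 p.2 η‖ₑ ^ q :=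
    hm.lintegral_prod_right'
  exact hm2.lintegral_prod_right'

/-- small times -/
lemma PP_small {M : ℝ} {f : ℝ × ℝ → ℂ} (hf : BS2 M f) (q t : ℝ) (hq : 2 < q) :
    PP f q t ≤ ENNReal.ofReal (4 * M) ^ (q - 2) * (ENNReal.ofReal (2 * Real.pi) ^ 2 * N2 f) := by
  have h2 : ∫⁻ a, ∫⁻ η, ‖FF f t t a η‖ₑ ^ 2 = ENNReal.ofReal (2 * Real.pi) ^ 2 * N2 f := by
    have h5 := FF_two hf (Measure.dirac (0 : ℝ)) (fun _ => t) t
    simp only [lintegral_dirac, measure_univ, mul_one] at h5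
    exact h5
  rw [← h2]
  unfold PP
  have hm : Measurable fun p : ℝ × ℝ => ‖FF f t t p.1 p.2‖ₑ ^ 2 :=
    (FF_jm hf.meas (a := fun _ : ℝ × ℝ => t) (b := fun _ => t) measurable_const measurable_const
      measurable_fst measurable_snd).enorm.pow_const 2
  have hm1 : ∀ a, Measurable fun η : ℝ => ‖FF f t t a η‖ₑ ^ 2 := fun a =>
    (FF_jm hf.meas (a := fun _ : ℝ => t) (b := fun _ => t) (c := fun _ => a) (d := fun η => η)
      measurable_const measurable_const measurable_const measurable_id).enorm.pow_const 2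
  calc ∫⁻ a, ∫⁻ η, ‖FF f t t a η‖ₑ ^ q
      ≤ ∫⁻ a, ∫⁻ η, ENNReal.ofReal (4 * M) ^ (q - 2) * ‖FF f t t a η‖ₑ ^ 2 := by
        apply lintegral_mono
        intro a
        apply lintegral_mono
        intro η
        simp only
        have e : ‖FF f t t a η‖ₑ ^ q = ‖FF f t t a η‖ₑ ^ (q - 2) * ‖FF f t t a η‖ₑ ^ 2 := by
          rw [← ENNReal.rpow_natCast _ 2,
            ← ENNReal.rpow_add_of_nonneg _ _ (by linarith) (by norm_num)]
          congr 1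
          push_cast
          ring
        rw [e]
        have h0 : ‖FF f t t a η‖ₑ ≤ ENNReal.ofReal (4 * M) := by
          rw [← ofReal_norm]
          exact ENNReal.ofReal_le_ofReal (FF_bd hf t t a η)
        exact mul_le_mul_left (ENNReal.rpow_le_rpow h0 (by linarith)) _
    _ = _ := by
        rw [← lintegral_const_mul _ hm.lintegral_prod_right']
        apply lintegral_congr
        intro a
        exact lintegral_const_mul _ (hm1 a)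

/-- large times -/
lemma PP_large {M : ℝ} {f : ℝ × ℝ → ℂ} (hf : BS2 M f) (t q a b V W : ℝ) (ht : t ≠ 0) (hq : 2 < q)
    (hV : 0 ≤ V) (hW : 0 ≤ W) (ha : 0 ≤ a) (hb : 0 ≤ b)
    (h1 : ∀ y : ℝ, ∫⁻ z, ∫⁻ x, ‖df y f (x, z)‖ₑ ≤ ENNReal.ofReal (V * |y| ^ a))
    (h2 : ∀ y : ℝ, ∫⁻ z, ∫⁻ x, ‖df y f (x, z)‖ₑ ^ 2 ≤ ENNReal.ofReal (W * |y| ^ b)) :
    PP f q t ≤ 2 ^ (q - 1) * (ENNReal.ofReal (Real.sqrt (2 * Real.pi) ^ (q - 1) *
        Real.sqrt (8 * Real.pi)) * (ENNReal.ofReal (|t| ^ (-(q / 2 - 1))) *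
          ∫⁻ ξ, ∫⁻ z, ‖gg f t ξ z‖ₑ ^ q)) +
      2 ^ (q - 1) * (ENNReal.ofReal (2 * Real.pi) ^ 2 * ENNReal.ofReal (V ^ (q - 2) * W) *
        ENNReal.ofReal (2 * ck (a * (q - 2) + b) * |t| ^ (-((a * (q - 2) + b) / 2)))) := by
  have h0 : 0 < |t| := abs_pos.2 ht
  have hgm : ∀ ξ, Measurable fun z : ℝ => gg f t ξ z := fun ξ =>
    gg_jm hf.meas (a := fun _ : ℝ => t) (b := fun _ => ξ) (c := fun z => z) measurable_const
      measurable_const measurable_id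
  -- joint measurability of the main majorant
  have hA3 : Measurable fun p : (ℝ × ℝ) × ℝ => kk' t p.1.2 p.2 * ‖gg f t p.1.1 p.2‖ₑ := by
    have e1 : Measurable fun p : (ℝ × ℝ) × ℝ => kk' t p.1.2 p.2 := by
      unfold kk'
      fun_prop
    exact e1.mul (gg_jm hf.meas (a := fun _ : (ℝ × ℝ) × ℝ => t) (b := fun p => p.1.1)
      (c := fun p => p.2) measurable_const (measurable_fst.comp measurable_fst)
      measurable_snd).enorm
  have hA2 : Measurable fun p : ℝ × ℝ => (∫⁻ z, kk' t p.2 z * ‖gg f t p.1 z‖ₑ) ^ q :=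
    hA3.lintegral_prod_right'.pow_const q
  have hA1 : ∀ ξ, Measurable fun η : ℝ => (∫⁻ z, kk' t η z * ‖gg f t ξ z‖ₑ) ^ q := by
    intro ξ
    have e1 : Measurable fun p : ℝ × ℝ => kk' t p.1 p.2 * ‖gg f t ξ p.2‖ₑ := by
      have e2 : Measurable fun p : ℝ × ℝ => kk' t p.1 p.2 := by
        unfold kk'
        fun_prop
      exact e2.mul (gg_jm hf.meas (a := fun _ : ℝ × ℝ => t) (b := fun _ => ξ)
        (c := fun p => p.2) measurable_const measurable_const measurable_snd).enorm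
    exact e1.lintegral_prod_right'.pow_const q
  set A : ℝ → ℝ → ℝ≥0∞ := fun ξ η => (∫⁻ z, kk' t η z * ‖gg f t ξ z‖ₑ) ^ q with hA
  set B : ℝ → ℝ → ℝ≥0∞ := fun ξ η =>
    (∫⁻ y, ENNReal.ofReal (gs t y) * ‖DD f t y ξ η‖ₑ) ^ q with hB
  have hpt : ∀ ξ η, ‖FF f t t ξ η‖ₑ ^ q ≤ 2 ^ (q - 1) * A ξ η + 2 ^ (q - 1) * B ξ η := by
    intro ξ η
    have h3 := split (gg_BS hf t ξ) t η ht
    have h4 : ‖FF f t t ξ η‖ₑ ≤ (∫⁻ z, kk' t η z * ‖gg f t ξ z‖ₑ) +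
        ∫⁻ y, ENNReal.ofReal (gs t y) * ‖DD f t y ξ η‖ₑ := h3
    calc ‖FF f t t ξ η‖ₑ ^ q ≤ ((∫⁻ z, kk' t η z * ‖gg f t ξ z‖ₑ) +
        ∫⁻ y, ENNReal.ofReal (gs t y) * ‖DD f t y ξ η‖ₑ) ^ q :=
          ENNReal.rpow_le_rpow h4 (by linarith)
      _ ≤ 2 ^ (q - 1) * (A ξ η + B ξ η) := ENNReal.rpow_add_le_mul_rpow_add_rpow _ _ (by linarith)
      _ = _ := mul_add _ _ _
  have h2t : (2 : ℝ≥0∞) ^ (q - 1) ≠ ⊤ := ENNReal.rpow_ne_top_of_nonneg (by linarith) (by simp)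
  have hmain : ∫⁻ ξ, ∫⁻ η, A ξ η ≤ ENNReal.ofReal (Real.sqrt (2 * Real.pi) ^ (q - 1) *
        Real.sqrt (8 * Real.pi)) * (ENNReal.ofReal (|t| ^ (-(q / 2 - 1))) *
          ∫⁻ ξ, ∫⁻ z, ‖gg f t ξ z‖ₑ ^ q) := by
    have e1 : ENNReal.ofReal (Real.sqrt (2 * Real.pi / |t|)) ^ (q - 1) *
        ENNReal.ofReal (Real.sqrt (8 * Real.pi * |t|)) =
        ENNReal.ofReal (Real.sqrt (2 * Real.pi) ^ (q - 1) * Real.sqrt (8 * Real.pi)) *
          ENNReal.ofReal (|t| ^ (-(q / 2 - 1))) := by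
      rw [ENNReal.ofReal_rpow_of_nonneg (by positivity) (by linarith),
        ← ENNReal.ofReal_mul (by positivity), ← ENNReal.ofReal_mul (by positivity), cst q t h0]
    calc ∫⁻ ξ, ∫⁻ η, A ξ η ≤ ∫⁻ ξ, ENNReal.ofReal (Real.sqrt (2 * Real.pi / |t|)) ^ (q - 1) *
        ENNReal.ofReal (Real.sqrt (8 * Real.pi * |t|)) * ∫⁻ z, ‖gg f t ξ z‖ₑ ^ q :=
          lintegral_mono fun ξ => main_sec (hgm ξ) t q ht (by linarith)
      _ = ENNReal.ofReal (Real.sqrt (2 * Real.pi / |t|)) ^ (q - 1) *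
        ENNReal.ofReal (Real.sqrt (8 * Real.pi * |t|)) * ∫⁻ ξ, ∫⁻ z, ‖gg f t ξ z‖ₑ ^ q := by
          apply lintegral_const_mul
          have e3 : Measurable fun p : ℝ × ℝ => ‖gg f t p.1 p.2‖ₑ ^ q :=
            (gg_jm hf.meas (a := fun _ : ℝ × ℝ => t) (b := fun p => p.1) (c := fun p => p.2)
              measurable_const measurable_fst measurable_snd).enorm.pow_const q
          exact e3.lintegral_prod_right'
      _ = _ := by rw [e1, mul_assoc]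
  have hrem := rem_q hf t q a b V W ht hq hV hW ha hb h1 h2
  calc PP f q t ≤ ∫⁻ ξ, ∫⁻ η, (2 ^ (q - 1) * A ξ η + 2 ^ (q - 1) * B ξ η) :=
        lintegral_mono fun ξ => lintegral_mono fun η => hpt ξ η
    _ = ∫⁻ ξ, (2 ^ (q - 1) * ∫⁻ η, A ξ η) + 2 ^ (q - 1) * ∫⁻ η, B ξ η := by
        apply lintegral_congr
        intro ξ
        rw [lintegral_add_left ((hA1 ξ).const_mul _), lintegral_const_mul' _ _ h2t,
          lintegral_const_mul' _ _ h2t]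
    _ = 2 ^ (q - 1) * (∫⁻ ξ, ∫⁻ η, A ξ η) + 2 ^ (q - 1) * ∫⁻ ξ, ∫⁻ η, B ξ η := by
        rw [lintegral_add_left (hA2.lintegral_prod_right'.const_mul _),
          lintegral_const_mul' _ _ h2t, lintegral_const_mul' _ _ h2t]
    _ ≤ _ := add_le_add (mul_le_mul_right hmain _) (mul_le_mul_right hrem _)

end Pool.Agent.H147R3.BV
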