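import Mathlib
import Pool.Agent.H147R3.BV.Six
set_option autoImplicit false

/-! Assembly over all times. -/

namespace Pool.Agent.H147R3.BV

open MeasureTheory Set Complex Filter Topology
open Pool.Agent.H147R3.PE
open scoped ENNReal

theorem mainBS (q a b : ℝ) (hq : 3 < q) (h4 : q < 4) (ha : 0 ≤ a) (hb : 0 ≤ b)
    (hab : 2 < a * (q - 2) + b) : ∃ K : ℝ≥0∞, K ≠ ⊤ ∧
    ∀ (M V W : ℝ) (f : ℝ × ℝ → ℂ), 0 < M → 0 ≤ V → 0 ≤ W → BS2 M f →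
      (∀ y : ℝ, ∫⁻ z, ∫⁻ x, ‖df y f (x, z)‖ₑ ≤ ENNReal.ofReal (V * |y| ^ a)) →
      (∀ y : ℝ, ∫⁻ z, ∫⁻ x, ‖df y f (x, z)‖ₑ ^ 2 ≤ ENNReal.ofReal (W * |y| ^ b)) →
      ∫⁻ ξ : ℝ × ℝ × ℝ, ‖PE.ext f ξ‖ₑ ^ q ≤
        K * (ENNReal.ofReal (M ^ (q - 2)) * N2 f + ENNReal.ofReal (V ^ (q - 2) * W)) := by
  obtain ⟨K1, hK1, hKK⟩ := sections q hq h4
  set κ : ℝ := a * (q - 2) + b with hκ
  have hq1 : 0 ≤ q - 1 := by linarith
  have hq2 : 0 ≤ q - 2 := by linarith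
  have h2t : (2 : ℝ≥0∞) ^ (q - 1) ≠ ⊤ := ENNReal.rpow_ne_top_of_nonneg hq1 (by simp)
  set P2 : ℝ≥0∞ := ENNReal.ofReal (2 * Real.pi) ^ 2 with hP2
  have hP2t : P2 ≠ ⊤ := ENNReal.pow_ne_top ENNReal.ofReal_ne_top
  set c1 : ℝ≥0∞ := ENNReal.ofReal (Real.sqrt (2 * Real.pi) ^ (q - 1) * Real.sqrt (8 * Real.pi))
    with hc1
  set Ka : ℝ≥0∞ := ENNReal.ofReal (4 ^ (q - 2)) * P2 * 2 with hKa
  set Kb : ℝ≥0∞ := 2 ^ (q - 1) * (c1 * K1) with hKb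
  set Kc : ℝ≥0∞ := 2 ^ (q - 1) * (P2 * (ENNReal.ofReal (2 * ck κ) * (ENNReal.ofReal (2 ^ (κ / 2)) *
    ∫⁻ t : ℝ, ENNReal.ofReal ((1 + ‖t‖) ^ (-(κ / 2)))))) with hKc
  have hκ2 : 1 < κ / 2 := by linarith
  have hKat : Ka ≠ ⊤ := ENNReal.mul_ne_top (ENNReal.mul_ne_top ENNReal.ofReal_ne_top hP2t) (by simp)
  have hKbt : Kb ≠ ⊤ := ENNReal.mul_ne_top h2t (ENNReal.mul_ne_top ENNReal.ofReal_ne_top hK1)
  have hKct : Kc ≠ ⊤ := ENNReal.mul_ne_top h2t (ENNReal.mul_ne_top hP2t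
    (ENNReal.mul_ne_top ENNReal.ofReal_ne_top
      (ENNReal.mul_ne_top ENNReal.ofReal_ne_top (time_ne _ hκ2))))
  refine ⟨Ka + Kb + Kc, ENNReal.add_ne_top.2 ⟨ENNReal.add_ne_top.2 ⟨hKat, hKbt⟩, hKct⟩, ?_⟩
  intro M V W f hM hV hW hf h1 h2
  set X : ℝ≥0∞ := ENNReal.ofReal (M ^ (q - 2)) * N2 f with hX
  set Y : ℝ≥0∞ := ENNReal.ofReal (V ^ (q - 2) * W) with hY
  have hck : 0 ≤ ck κ := by unfold ck; positivity
  -- small times
  have hsm : ∫⁻ t in Icc (-1 : ℝ) 1, PP f q t ≤ Ka * X := by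
    calc ∫⁻ t in Icc (-1 : ℝ) 1, PP f q t ≤ ∫⁻ t in Icc (-1 : ℝ) 1,
          ENNReal.ofReal (4 * M) ^ (q - 2) * (P2 * N2 f) :=
          lintegral_mono fun t => PP_small hf q t (by linarith)
      _ = ENNReal.ofReal (4 * M) ^ (q - 2) * (P2 * N2 f) * 2 := by
          rw [lintegral_const, Measure.restrict_apply_univ, Real.volume_Icc]
          norm_num
      _ = _ := by
          rw [ENNReal.ofReal_rpow_of_nonneg (by positivity) hq2,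
            Real.mul_rpow (by norm_num) hM.le, ENNReal.ofReal_mul (by positivity), hKa, hX]
          ring
  -- large times
  have hgjm : Measurable fun p : ℝ × ℝ => ∫⁻ z, ‖gg f p.1 p.2 z‖ₑ ^ q := by
    have e3 : Measurable fun p : (ℝ × ℝ) × ℝ => ‖gg f p.1.1 p.1.2 p.2‖ₑ ^ q :=
      (gg_jm hf.meas (a := fun p : (ℝ × ℝ) × ℝ => p.1.1) (b := fun p => p.1.2) (c := fun p => p.2)
        (measurable_fst.comp measurable_fst) (measurable_snd.comp measurable_fst)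
        measurable_snd).enorm.pow_const q
    exact e3.lintegral_prod_right'
  have hGm : Measurable fun t : ℝ => ∫⁻ ξ, ∫⁻ z, ‖gg f t ξ z‖ₑ ^ q := hgjm.lintegral_prod_right'
  have htm : Measurable fun t : ℝ => ENNReal.ofReal (|t| ^ (-(q / 2 - 1))) := by fun_prop
  have htk : Measurable fun t : ℝ => ENNReal.ofReal (|t| ^ (-(κ / 2))) := by fun_prop
  have hla : ∫⁻ t in (Icc (-1 : ℝ) 1)ᶜ, PP f q t ≤ Kb * X + Kc * Y := by
    have e1 : ∀ t ∈ (Icc (-1 : ℝ) 1)ᶜ, PP f q t ≤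
        2 ^ (q - 1) * (c1 * (ENNReal.ofReal (|t| ^ (-(q / 2 - 1))) *
          ∫⁻ ξ, ∫⁻ z, ‖gg f t ξ z‖ₑ ^ q)) +
        2 ^ (q - 1) * (P2 * Y * (ENNReal.ofReal (2 * ck κ) *
          ENNReal.ofReal (|t| ^ (-(κ / 2))))) := by
      intro t ht
      have h5 : 1 < |t| := by
        by_contra h
        push Not at h
        exact ht (abs_le.1 h)
      have ht0 : t ≠ 0 := by
        intro h
        rw [h, abs_zero] at h5
        linarith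
      have h6 := PP_large hf t q a b V W ht0 (by linarith) hV hW ha hb h1 h2
      rw [ENNReal.ofReal_mul (p := 2 * ck (a * (q - 2) + b)) (by positivity)] at h6
      exact h6
    have m1 : Measurable fun t : ℝ => 2 ^ (q - 1) * (c1 * (ENNReal.ofReal (|t| ^ (-(q / 2 - 1))) *
          ∫⁻ ξ, ∫⁻ z, ‖gg f t ξ z‖ₑ ^ q)) := ((htm.mul hGm).const_mul _).const_mul _
    have m2 : Measurable fun t : ℝ => 2 ^ (q - 1) * (P2 * Y * (ENNReal.ofReal (2 * ck κ) *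
          ENNReal.ofReal (|t| ^ (-(κ / 2))))) := ((htk.const_mul _).const_mul _).const_mul _
    calc ∫⁻ t in (Icc (-1 : ℝ) 1)ᶜ, PP f q t
        ≤ ∫⁻ t in (Icc (-1 : ℝ) 1)ᶜ, (2 ^ (q - 1) * (c1 * (ENNReal.ofReal (|t| ^ (-(q / 2 - 1))) *
          ∫⁻ ξ, ∫⁻ z, ‖gg f t ξ z‖ₑ ^ q)) +
        2 ^ (q - 1) * (P2 * Y * (ENNReal.ofReal (2 * ck κ) *
          ENNReal.ofReal (|t| ^ (-(κ / 2)))))) := setLIntegral_mono (m1.add m2) e1
      _ = 2 ^ (q - 1) * (c1 * ∫⁻ t in (Icc (-1 : ℝ) 1)ᶜ, (ENNReal.ofReal (|t| ^ (-(q / 2 - 1))) *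
          ∫⁻ ξ, ∫⁻ z, ‖gg f t ξ z‖ₑ ^ q)) +
        2 ^ (q - 1) * (P2 * Y * (ENNReal.ofReal (2 * ck κ) *
          ∫⁻ t in (Icc (-1 : ℝ) 1)ᶜ, ENNReal.ofReal (|t| ^ (-(κ / 2))))) := by
          have m0 : Measurable fun t : ℝ => ENNReal.ofReal (|t| ^ (-(q / 2 - 1))) *
            ∫⁻ ξ, ∫⁻ z, ‖gg f t ξ z‖ₑ ^ q := htm.mul hGm
          rw [lintegral_add_left m1, lintegral_const_mul _ (m0.const_mul _),
            lintegral_const_mul _ m0,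
            lintegral_const_mul _ ((htk.const_mul _).const_mul _),
            lintegral_const_mul _ (htk.const_mul _), lintegral_const_mul _ htk]
      _ ≤ 2 ^ (q - 1) * (c1 * (K1 * X)) +
        2 ^ (q - 1) * (P2 * Y * (ENNReal.ofReal (2 * ck κ) * (ENNReal.ofReal (2 ^ (κ / 2)) *
          ∫⁻ t : ℝ, ENNReal.ofReal ((1 + ‖t‖) ^ (-(κ / 2)))))) := by
          refine add_le_add (mul_le_mul_right (mul_le_mul_right (hKK M f hM hf) _) _) ?_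
          exact mul_le_mul_right (mul_le_mul_right (mul_le_mul_right (time_int _ hκ2) _) _) _
      _ = _ := by
          rw [hKb, hKc]
          ring
  calc ∫⁻ ξ : ℝ × ℝ × ℝ, ‖PE.ext f ξ‖ₑ ^ q ≤ ∫⁻ t, PP f q t := ext_PP hf q (by linarith)
    _ = (∫⁻ t in Icc (-1 : ℝ) 1, PP f q t) + ∫⁻ t in (Icc (-1 : ℝ) 1)ᶜ, PP f q t :=
        (lintegral_add_compl _ measurableSet_Icc).symm
    _ ≤ Ka * X + (Kb * X + Kc * Y) := add_le_add hsm hla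
    _ ≤ (Ka + Kb + Kc) * X + (Ka + Kb + Kc) * Y := by
        have e2 : Ka * X + (Kb * X + Kc * Y) = (Ka + Kb) * X + Kc * Y := by ring
        rw [e2]
        refine add_le_add (mul_le_mul_left le_self_add _) (mul_le_mul_left le_add_self _)
    _ = _ := by rw [mul_add]

end Pool.Agent.H147R3.BV
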